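import Pool.Agent.Q59.EC.Fam2
import Pool.Agent.Q59.OT.Main

/-!
# The standard conjecture of Hodge type for Fermat varieties in characteristic `p`

Let `p` be a prime. For `M` prime to `p` the primitive cohomology of the Fermat variety of degree `M` and
even dimension `n` over an algebraic closure `k` of the field with `p` elements is a sum of lines indexed
by multisets of `n + 2` nonzero residues modulo `M` of sum zero (characters). Fix an embedding of the
field of roots of unity in `ℂ`. The primitive algebraic classes with complex coefficients, modulo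
numerical equivalence, are the sum of lines `ℂ z(s)`, one for every `s` in the family `A M` of the
characters of algebraic classes, and the hermitian form `(x, y) ↦ (-1) ^ (n / 2) x · ȳ` is diagonal with
respect to these lines. Let `ε M s` be its sign on `ℂ z(s)`. The standard conjecture of Hodge type for
the Fermat varieties of degree `M` says that `ε M s = 1` for all `s` in `A M`.

The families `A M` have the properties of `Admissible` below (Shioda, Katsura, Aoki, Tate;
specialization of algebraic cycles). The signs have the properties of `Signs`: they are one for pairs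
(dimension zero), for surfaces (Hodge index theorem) and for the characters whose lines are algebraic
in characteristic zero (the classes lift to characteristic zero, where the Hodge-Riemann relations
hold); they are multiplicative for unions (by the inductive structure of Shioda and Katsura the line of
a union is the product of the lines, and the form on it is a negative rational multiple of the product
of the forms `(x, y) ↦ x · ȳ`); they are invariant under complex conjugation and under pull-back from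
degree `M` to degree `N M`.

The theorem: the standard conjecture of Hodge type holds

* for the Fermat varieties of degree `m` of all dimensions in every characteristic, if `m` is
  a `GoodDegree`, for instance for all `m ≤ 54`;
* for the line of a character `s` of arbitrary degree `m`, if the order `f` of `p` modulo `m` is odd,
  `m = m1 * m2`, `m1` belongs to the degrees `GoodDegree2`, and the primes which divide `m2` are large
  compared with `f` times the number of the entries of `s` of order divisible by the prime; for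
  instance for the Fermat varieties of dimension `n` and odd degree `m1 * m2`, if `f` is odd and all
  primes dividing `m2` are greater than `2 f (n + 2) + 1`.
-/

namespace Pool.Agent.Results.MP_ffcd14_ag.FermatPositivity

open Pool.Agent.H916T Pool.Agent.Y2.Cv

/-- Membership in the family of Hodge characters generated by the pairs, the standard characters, the
characters with four entries and the curve products, in the degree `m` if `m` is even and in the degree
`2 * m` if `m` is odd; their lines are algebraic in characteristic zero. -/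
def AlgebraicLine (m : ℕ) (s : Multiset (ZMod m)) : Prop :=
  (Even m → Pool.Agent.H916R2.Generated m (SurfaceOrCurveProduct m) s) ∧
    (Odd m → Pool.Agent.H916R2.Generated (2 * m) (SurfaceOrCurveProduct (2 * m))
      (s.map fun a => ((2 * a.val : ℕ) : ZMod (2 * m))))

/-- The closure properties of the families of the characters of algebraic classes. -/
structure Admissible (p : ℕ) (A : ∀ M : ℕ, Multiset (ZMod M) → Prop) : Prop where
  /-- members are Tate characters -/
  tate : ∀ M, 0 < M → p.Coprime M → ∀ s, A M s → IsTate p M s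
  /-- duality -/
  neg : ∀ M, 0 < M → p.Coprime M → ∀ s, A M s → A M (s.map fun a => -a)
  /-- pairs -/
  pair : ∀ M, 0 < M → p.Coprime M → ∀ a : ZMod M, a ≠ 0 → A M {a, -a}
  /-- surfaces -/
  surface : ∀ M, 0 < M → p.Coprime M → ∀ s, SurfaceTate p M s → A M s
  /-- standard characters -/
  standard : ∀ M, 0 < M → p.Coprime M → ∀ q : ℕ, q.Prime → q ∣ M → ∀ s, Standard q M s → A M s
  /-- Hodge characters with algebraic lines in characteristic zero -/
  hodge : ∀ M, 0 < M → p.Coprime M → ∀ s, Pool.Agent.H916R2.IsHodge M s → s ≠ 0 →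
    AlgebraicLine M s → A M s
  /-- closed under union -/
  join : ∀ M, 0 < M → p.Coprime M → ∀ s t, A M s → A M t → A M (s + t)
  /-- closed under removal of a pair -/
  cancel : ∀ M, 0 < M → p.Coprime M → ∀ a s, A M (a ::ₘ -a ::ₘ s) → A M s
  /-- descent of the degree -/
  descend : ∀ M N, 0 < M → 0 < N → p.Coprime M → p.Coprime N → ∀ s : Multiset (ZMod M),
    A (N * M) (s.map fun a => ((N * a.val : ℕ) : ZMod (N * M))) → A M s

/-- The properties of the signs of the hermitian form on the lines of algebraic classes. -/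
structure Signs (p : ℕ) (A : ∀ M : ℕ, Multiset (ZMod M) → Prop)
    (ε : ∀ M : ℕ, Multiset (ZMod M) → ℤˣ) : Prop where
  /-- complex conjugation -/
  neg : ∀ M, 0 < M → p.Coprime M → ∀ s, A M s → ε M (s.map fun a => -a) = ε M s
  /-- pairs -/
  pair : ∀ M, 0 < M → p.Coprime M → ∀ a : ZMod M, a ≠ 0 → ε M {a, -a} = 1
  /-- surfaces (Hodge index theorem) -/
  surface : ∀ M, 0 < M → p.Coprime M → ∀ s, SurfaceTate p M s → ε M s = 1
  /-- standard characters (Hodge-Riemann relations in characteristic zero) -/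
  standard : ∀ M, 0 < M → p.Coprime M → ∀ q : ℕ, q.Prime → q ∣ M → ∀ s, Standard q M s → ε M s = 1
  /-- algebraic lines in characteristic zero (Hodge-Riemann relations) -/
  hodge : ∀ M, 0 < M → p.Coprime M → ∀ s, Pool.Agent.H916R2.IsHodge M s → s ≠ 0 →
    AlgebraicLine M s → ε M s = 1
  /-- unions -/
  join : ∀ M, 0 < M → p.Coprime M → ∀ s t, A M s → A M t → ε M (s + t) = ε M s * ε M t
  /-- pull-back -/
  level : ∀ M N, 0 < M → 0 < N → p.Coprime M → p.Coprime N → ∀ s : Multiset (ZMod M), A M s →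
    ε (N * M) (s.map fun a => ((N * a.val : ℕ) : ZMod (N * M))) = ε M s

/-- All prime divisors of `m` are `2`, `a` or `b`. -/
def PrimesIn (m a b : ℕ) : Prop := ∀ r : ℕ, r.Prime → r ∣ m → r = 2 ∨ r = a ∨ r = b

/-- The degrees: the prime divisors of `m` are among `2, 3, 5`, or `2, 3, 7`, or `2, 3, 11`, or
`2, 3, 13`, or `2, q` for a prime `q` congruent to `7` modulo `8`; or `4` does not divide `m` and
they are among `2, 5, 7`, or `2, 3, 17`, or `2, 3, 19`, or `2, q` for a prime `q`. -/
def GoodDegree (m : ℕ) : Prop :=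
  PrimesIn m 3 5 ∨ PrimesIn m 3 7 ∨ PrimesIn m 3 11 ∨ PrimesIn m 3 13 ∨
  (∃ q : ℕ, q.Prime ∧ q % 8 = 7 ∧ PrimesIn m q q) ∨
  (¬ 4 ∣ m ∧ (PrimesIn m 5 7 ∨ PrimesIn m 3 17 ∨ PrimesIn m 3 19 ∨
    ∃ q : ℕ, q.Prime ∧ PrimesIn m q q))

/-- The number of the entries of `s` of order divisible by `q`; entries of order `2` modulo `4` are
counted twice. -/
noncomputable def weight (q : ℕ) {m : ℕ} (s : Multiset (ZMod m)) : ℕ :=
  (s.map fun a => if q ∣ addOrderOf a then (if addOrderOf a % 4 = 2 then 2 else 1) else 0).sum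

/-- The number `w` is small for the prime `q`. -/
def Small (m q w : ℕ) : Prop :=
  5 ≤ q ∧ (2 * w < q - 1 ∨
    (¬ 4 ∣ m ∧ w < q - 1 ∧ (¬ 3 ∣ m ∨ q = 11 ∨ q = 13 ∨ q = 17 ∨ q = 19)))

lemma weight_eq (q : ℕ) {m : ℕ} (s : Multiset (ZMod m)) :
    ((weight q s : ℕ) : ℤ) = Pool.Agent.Q59.PL.wq q s := by
  induction s using Multiset.induction_on with
  | empty => simp [weight, Pool.Agent.Q59.PL.wq]
  | cons a s ih =>
    unfold weight Pool.Agent.Q59.PL.wq at ih ⊢
    rw [Multiset.map_cons, Multiset.sum_cons, Multiset.map_cons, Multiset.sum_cons, ← ih]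
    push_cast
    rfl

lemma Small.cond {m q : ℕ} [NeZero m] {p : ℕ} (hpm : p.Coprime m) {s : Multiset (ZMod m)}
    (h : Small m q (orderOf (p : ZMod m) * weight q s)) :
    Pool.Agent.Q59.PL.Cond m q (Pool.Agent.Q59.PL.wq q (Pool.Agent.Q59.OT.fr p s)) := by
  obtain ⟨h5, h⟩ := h
  refine ⟨h5, ?_⟩
  rw [Pool.Agent.Q59.OT.wq_fr hpm, ← weight_eq]
  have e : ((orderOf (p : ZMod m) : ℕ) : ℤ) * ((weight q s : ℕ) : ℤ) =
      ((orderOf (p : ZMod m) * weight q s : ℕ) : ℤ) := by push_cast; ring
  rw [e]
  rcases h with h | ⟨h4, h, h3⟩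
  · left
    have : ((2 * (orderOf (p : ZMod m) * weight q s) + 1 : ℕ) : ℤ) < q := by exact_mod_cast (by omega)
    push_cast at this ⊢
    linarith
  · refine Or.inr ⟨h4, ?_, h3⟩
    have : ((orderOf (p : ZMod m) * weight q s + 1 : ℕ) : ℤ) < q := by exact_mod_cast (by omega)
    push_cast at this ⊢
    linarith

lemma good_iff {m : ℕ} (h : GoodDegree m) : Pool.Agent.Q59.EC.GoodDegreeP m := by
  rcases h with h | h | h | h | ⟨q, hq, hq7, h⟩ | ⟨h4, h | h | h | ⟨q, hq, h⟩⟩
  · exact Or.inl h
  · exact Or.inr (Or.inl h)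
  · exact Or.inr (Or.inr (Or.inl h))
  · exact Or.inr (Or.inr (Or.inr (Or.inl h)))
  · exact Or.inr (Or.inr (Or.inr (Or.inr (Or.inl ⟨q, hq, hq7,
      fun r hr hrm => (h r hr hrm).imp id (fun h' => h'.elim id id)⟩))))
  · exact Or.inr (Or.inr (Or.inr (Or.inr (Or.inr ⟨h4, Or.inl h⟩))))
  · exact Or.inr (Or.inr (Or.inr (Or.inr (Or.inr ⟨h4, Or.inr (Or.inl h)⟩))))
  · exact Or.inr (Or.inr (Or.inr (Or.inr (Or.inr ⟨h4, Or.inr (Or.inr (Or.inl h))⟩))))
  · exact Or.inr (Or.inr (Or.inr (Or.inr (Or.inr ⟨h4, Or.inr (Or.inr (Or.inr ⟨q, hq,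
      fun r hr hrm => (h r hr hrm).imp id (fun h' => h'.elim id id)⟩))⟩))))

lemma good_of {m : ℕ} (h : Pool.Agent.Q59.EC.GoodDegreeP m) : GoodDegree m := by
  rcases h with h | h | h | h | ⟨q, hq, hq7, h⟩ | ⟨h4, h | h | h | ⟨q, hq, h⟩⟩
  · exact Or.inl h
  · exact Or.inr (Or.inl h)
  · exact Or.inr (Or.inr (Or.inl h))
  · exact Or.inr (Or.inr (Or.inr (Or.inl h)))
  · exact Or.inr (Or.inr (Or.inr (Or.inr (Or.inl ⟨q, hq, hq7,
      fun r hr hrm => (h r hr hrm).imp id Or.inl⟩))))
  · exact Or.inr (Or.inr (Or.inr (Or.inr (Or.inr ⟨h4, Or.inl h⟩))))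
  · exact Or.inr (Or.inr (Or.inr (Or.inr (Or.inr ⟨h4, Or.inr (Or.inl h)⟩))))
  · exact Or.inr (Or.inr (Or.inr (Or.inr (Or.inr ⟨h4, Or.inr (Or.inr (Or.inl h))⟩))))
  · exact Or.inr (Or.inr (Or.inr (Or.inr (Or.inr ⟨h4, Or.inr (Or.inr (Or.inr ⟨q, hq,
      fun r hr hrm => (h r hr hrm).imp id Or.inl⟩))⟩))))

section

variable {p : ℕ} {A : ∀ M : ℕ, Multiset (ZMod M) → Prop} {ε : ∀ M : ℕ, Multiset (ZMod M) → ℤˣ}

/-- the members of sign one -/
def Pos (A : ∀ M : ℕ, Multiset (ZMod M) → Prop) (ε : ∀ M : ℕ, Multiset (ZMod M) → ℤˣ) (M : ℕ)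
    (s : Multiset (ZMod M)) : Prop := A M s ∧ ε M s = 1

lemma pos_cancel (hA : Admissible p A) (hε : Signs p A ε) {M : ℕ} (hM : 0 < M)
    (hpM : p.Coprime M) (a : ZMod M) (s : Multiset (ZMod M)) (h : Pos A ε M (a ::ₘ -a ::ₘ s)) :
    Pos A ε M s := by
  have h1 : A M s := hA.cancel M hM hpM a s h.1
  refine ⟨h1, ?_⟩
  by_cases ha : a = 0
  · exact absurd (hA.tate M hM hpM _ h.1).1 (by
      rw [ha]; exact not_not.mpr (Multiset.mem_cons_self _ _))
  · have h2 := hε.join M hM hpM {a, -a} s (hA.pair M hM hpM a ha) h1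
    rw [hε.pair M hM hpM a ha, one_mul, Multiset.insert_eq_cons, Multiset.cons_add,
      Multiset.singleton_add] at h2
    rw [← h2]
    exact h.2

lemma pos_descend (hA : Admissible p A) (hε : Signs p A ε) {M N : ℕ} (hM : 0 < M) (hN : 0 < N)
    (hpM : p.Coprime M) (hpN : p.Coprime N) (s : Multiset (ZMod M))
    (h : Pos A ε (N * M) (s.map fun a => ((N * a.val : ℕ) : ZMod (N * M)))) : Pos A ε M s := by
  have h1 := hA.descend M N hM hN hpM hpN s h.1
  exact ⟨h1, by rw [← hε.level M N hM hN hpM hpN s h1]; exact h.2⟩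

lemma pos_join (hA : Admissible p A) (hε : Signs p A ε) {M : ℕ} (hM : 0 < M)
    (hpM : p.Coprime M) (s t : Multiset (ZMod M)) (hs : Pos A ε M s) (ht : Pos A ε M t) :
    Pos A ε M (s + t) :=
  ⟨hA.join M hM hpM s t hs.1 ht.1, by
    rw [hε.join M hM hpM s t hs.1 ht.1, hs.2, ht.2, one_mul]⟩

lemma pos_admC (hA : Admissible p A) (hε : Signs p A ε) : Pool.Agent.Q59.EC.AdmC p (Pos A ε) where
  pair M hM hpM a ha := ⟨hA.pair M hM hpM a ha, hε.pair M hM hpM a ha⟩
  surface M hM hpM s hs := ⟨hA.surface M hM hpM s hs, hε.surface M hM hpM s hs⟩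
  standard M hM hpM q hq hqM s hs := ⟨hA.standard M hM hpM q hq hqM s hs,
    hε.standard M hM hpM q hq hqM s hs⟩
  hodge M hM hpM s hs hne h := ⟨hA.hodge M hM hpM s hs hne h, hε.hodge M hM hpM s hs hne h⟩
  join M hM hpM s t hs ht := pos_join hA hε hM hpM s t hs ht
  cancel M hM hpM a s h := pos_cancel hA hε hM hpM a s h
  descend M N hM hN hpM hpN s h := pos_descend hA hε hM hN hpM hpN s h

lemma pos_admT (hA : Admissible p A) (hε : Signs p A ε) : Pool.Agent.Q59.RL.AdmT p (Pos A ε) :=
  ⟨fun M hM hpM s hs => hA.tate M hM hpM s hs.1,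
    fun M hM hpM s hs => ⟨hA.neg M hM hpM s hs.1, by rw [hε.neg M hM hpM s hs.1]; exact hs.2⟩,
    fun M hM hpM a ha => ⟨hA.pair M hM hpM a ha, hε.pair M hM hpM a ha⟩,
    fun M hM hpM s hs => ⟨hA.surface M hM hpM s hs, hε.surface M hM hpM s hs⟩,
    fun M hM hpM q hq hqM s hs => ⟨hA.standard M hM hpM q hq hqM s hs,
      hε.standard M hM hpM q hq hqM s hs⟩,
    fun M hM hpM s t hs ht => pos_join hA hε hM hpM s t hs ht,
    fun M hM hpM a s h => pos_cancel hA hε hM hpM a s h,
    fun M N hM hN hpM hpN s h => pos_descend hA hε hM hN hpM hpN s h⟩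

end

/-- **The standard conjecture of Hodge type for Fermat varieties.** -/
theorem result :
    (∀ m : ℕ, 0 < m → m ≤ 54 → GoodDegree m) ∧
    ∀ (p : ℕ), p.Prime → ∀ (A : ∀ M : ℕ, Multiset (ZMod M) → Prop)
      (ε : ∀ M : ℕ, Multiset (ZMod M) → ℤˣ), Admissible p A → Signs p A ε →
      ∀ m : ℕ, 0 < m → p.Coprime m → ∀ s : Multiset (ZMod m), A m s →
        (GoodDegree m ∨ (Odd (orderOf (p : ZMod m)) ∧ ∃ m1 m2 : ℕ, m1 * m2 = m ∧
          GoodDegree2 m1 ∧
          ∀ q : ℕ, q.Prime → q ∣ m2 → Small m q (orderOf (p : ZMod m) * weight q s))) →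
        ε m s = 1 := by
  refine ⟨fun m hm h54 => good_of (Pool.Agent.Q59.EC.goodDegreeP_le hm h54), ?_⟩
  intro p hp A ε hA hε m hm hpm s hAs h
  have : NeZero m := ⟨hm.ne'⟩
  have hs : IsTate p m s := hA.tate m hm hpm s hAs
  have hC := pos_admC hA hε
  rcases h with h | ⟨hf, m1, m2, h12, hgood, hbig⟩
  · exact (hC.all hp hm hpm (good_iff h) hs).2
  · rcases Nat.lt_or_ge m 2 with hm1 | hm2
    · have h1 : m = 1 := by omega
      subst h1
      exact (hC.all hp hm hpm (Or.inl fun q hq h => absurd (Nat.dvd_one.mp h) hq.one_lt.ne') hs).2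
    · have hT := pos_admT hA hε
      have hH : Pool.Agent.H916R2.IsHodge m (Pool.Agent.Q59.OT.fr p s) :=
        Pool.Agent.Q59.OT.fr_hodge hpm hs
      have hiff : Pos A ε m s ↔ Pos A ε m (Pool.Agent.Q59.OT.fr p s) :=
        Pool.Agent.Q59.OT.iff_fr hT hp hpm hm2 hf hs
      refine (hiff.mpr ?_).2
      by_cases hne : Pool.Agent.Q59.OT.fr p s = 0
      · rw [hne]; exact hT.zero hpm hm2
      · refine hC.hodge m hm hpm _ hH hne ⟨fun he => ?_, fun ho => ?_⟩
        · refine Pool.Agent.Q59.PL.main_even h12 ?_ hgood hH hne fun q hq hqm =>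
            (hbig q hq hqm).cond hpm
          by_contra h
          have h1 : 2 ∣ m1 * m2 := by rw [h12]; exact he.two_dvd
          have h2 : 2 ∣ m2 := (Nat.prime_two.dvd_mul.mp h1).resolve_left h
          exact absurd (hbig 2 Nat.prime_two h2).1 (by norm_num)
        · exact Pool.Agent.Q59.PL.main_odd (Nat.odd_iff.mp ho) h12 hgood hH hne
            fun q hq hqm => (hbig q hq hqm).cond hpm

end Pool.Agent.Results.MP_ffcd14_ag.FermatPositivity
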