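import Pool.Agent.Q59.EC.SignDefs
import Pool.Agent.Results.MP_557161_ag.FermatFixedOrder

/-!
# The signature of the intersection form on Fermat varieties in characteristic `p`

Let `X` be the Fermat variety of degree `m` and even dimension `n = 2 * k - 2` over an algebraic closure
of the field with `p` elements, `p` not dividing `m`, and let `f` be the order of `p` modulo `m`. As
explained in `Pool/Agent/Q59/EC/SignDefs.lean`, the primitive cycles of dimension `n / 2` with complex coefficients, modulo
numerical equivalence, are the sum of lines `ℂ z(s)`, one for every tuple `s` of `n + 2` nonzero residues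
which belongs to the family `A m` of the characters of algebraic classes, and the hermitian form
`(-1) ^ (n / 2) x · ȳ` is diagonal with respect to these lines, with the sign `ε m s` on `ℂ z(s)`. So
its signature is `(positive, negative)`, where `positive` and `negative` are the numbers of the tuples
`s` in `A m` with `ε m s = 1` and `ε m s = -1`. The standard conjecture of Hodge type says that
`negative = 0`.

The theorem: for all `k` and `f` there is a constant `C` such that for all primes `p` and all degrees `m`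
for which `p` has order `f` modulo `m`

* `negative ≤ C * (m ^ (k - 1) + h ^ (2 * k - 2))`, `h` being the largest of the numbers
  `gcd (p ^ e + 1, m)`, `e < f`;
* `m ^ k + h ^ (2 * k - 1) ≤ C * positive`;
* hence `negative ≤ (C / m) ^ (1 / 2) * positive`.

So the form is positive definite up to a proportion `O(m ^ (-1/2))`.
-/

namespace Pool.Agent.Results.MP_ffcd14_ag.FermatSignature

open Pool.Agent.H916T
open Pool.Agent.Q59.EC.SignDefs (Admissible Signs)
open Pool.Agent.Results.MP_557161_ag.FermatFixedOrder (AlgebraicLine tateLines openLines maxGcd)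

/-- The number of the tuples in `A m` of sign `1`: the dimension of a maximal positive definite
subspace of the primitive cycles. -/
noncomputable def positive (A : ∀ M : ℕ, Multiset (ZMod M) → Prop)
    (ε : ∀ M : ℕ, Multiset (ZMod M) → ℤˣ) (k m : ℕ) : ℕ :=
  Nat.card {s : Fin (2 * k) → ZMod m //
    A m ((Finset.univ : Finset (Fin (2 * k))).val.map s) ∧
      ε m ((Finset.univ : Finset (Fin (2 * k))).val.map s) = 1}

/-- The number of the tuples in `A m` of sign `-1`: the dimension of a maximal negative definite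
subspace of the primitive cycles. -/
noncomputable def negative (A : ∀ M : ℕ, Multiset (ZMod M) → Prop)
    (ε : ∀ M : ℕ, Multiset (ZMod M) → ℤˣ) (k m : ℕ) : ℕ :=
  Nat.card {s : Fin (2 * k) → ZMod m //
    A m ((Finset.univ : Finset (Fin (2 * k))).val.map s) ∧
      ε m ((Finset.univ : Finset (Fin (2 * k))).val.map s) = -1}

section

variable {p : ℕ} {A : ∀ M : ℕ, Multiset (ZMod M) → Prop} {ε : ∀ M : ℕ, Multiset (ZMod M) → ℤˣ}

lemma gen_sign (hA : Admissible p A) (hε : Signs p A ε) {M : ℕ} (hM : 0 < M) (hpM : p.Coprime M)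
    {t : Multiset (ZMod M)}
    (h : Generated M (fun t => SurfaceTate p M t ∨ ∃ q : ℕ, q.Prime ∧ q ∣ M ∧ Standard q M t) t) :
    A M t ∧ ε M t = 1 := by
  induction h with
  | ofBase t ht =>
    rcases ht with ht | ⟨q, hq, hqM, ht⟩
    · exact ⟨hA.surface M hM hpM t ht, hε.surface M hM hpM t ht⟩
    · exact ⟨hA.standard M hM hpM q hq hqM t ht, hε.standard M hM hpM q hq hqM t ht⟩
  | pair a ha => exact ⟨hA.pair M hM hpM a ha, hε.pair M hM hpM a ha⟩
  | join s t _ _ ihs iht =>
    refine ⟨hA.join M hM hpM s t ihs.1 iht.1, ?_⟩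
    rw [hε.join M hM hpM s t ihs.1 iht.1, ihs.2, iht.2, one_mul]
  | cancel a s h ih =>
    have h1 : A M s := hA.cancel M hM hpM a s ih.1
    refine ⟨h1, ?_⟩
    by_cases ha : a = 0
    · exact absurd (hA.tate M hM hpM _ ih.1).1 (by
        rw [ha]; exact not_not.mpr (Multiset.mem_cons_self _ _))
    · have h2 := hε.join M hM hpM {a, -a} s (hA.pair M hM hpM a ha) h1
      rw [hε.pair M hM hpM a ha, one_mul, Multiset.insert_eq_cons, Multiset.cons_add,
        Multiset.singleton_add] at h2
      rw [← h2]
      exact ih.2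

lemma line_sign (hA : Admissible p A) (hε : Signs p A ε) {m : ℕ} (hm : 0 < m) (hpm : p.Coprime m)
    {s : Multiset (ZMod m)} (h : AlgebraicLine p m s) : A m s ∧ ε m s = 1 := by
  obtain ⟨N, hN, hpN, h⟩ := h
  obtain ⟨h1, h2⟩ := gen_sign hA hε (Nat.mul_pos hN hm) (Nat.Coprime.mul_right hpN hpm) h
  have h3 := hA.descend m N hm hN hpm hpN s h1
  exact ⟨h3, by rw [← hε.level m N hm hN hpm hpN s h3]; exact h2⟩

lemma pairs_sign (hA : Admissible p A) (hε : Signs p A ε) {m : ℕ} (hm : 2 ≤ m) (hpm : p.Coprime m)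
    (k : ℕ) (a : ZMod m) (ha : a ≠ 0) :
    A m (Multiset.replicate k a + Multiset.replicate k (-a)) ∧
      ε m (Multiset.replicate k a + Multiset.replicate k (-a)) = 1 := by
  have hm0 : 0 < m := by omega
  induction k with
  | zero =>
    have h1 : A m 0 := hA.cancel m hm0 hpm a 0 (hA.pair m hm0 hpm a ha)
    refine ⟨by simpa using h1, ?_⟩
    have h2 := hε.join m hm0 hpm {a, -a} 0 (hA.pair m hm0 hpm a ha) h1
    rw [hε.pair m hm0 hpm a ha, one_mul, add_zero, hε.pair m hm0 hpm a ha] at h2
    simpa using h2.symm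
  | succ k ih =>
    have e : Multiset.replicate (k + 1) a + Multiset.replicate (k + 1) (-a) =
        {a, -a} + (Multiset.replicate k a + Multiset.replicate k (-a)) := by
      rw [Multiset.replicate_succ, Multiset.replicate_succ, Multiset.insert_eq_cons,
        Multiset.cons_add, Multiset.add_cons, Multiset.cons_add, Multiset.singleton_add]
    rw [e]
    refine ⟨hA.join m hm0 hpm _ _ (hA.pair m hm0 hpm a ha) ih.1, ?_⟩
    rw [hε.join m hm0 hpm _ _ (hA.pair m hm0 hpm a ha) ih.1, hε.pair m hm0 hpm a ha, ih.2, one_mul]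

lemma one_le_positive (hA : Admissible p A) (hε : Signs p A ε) {m : ℕ} [NeZero m] (hm : 2 ≤ m)
    (hpm : p.Coprime m) (k : ℕ) : 1 ≤ positive A ε k m := by
  have : Fact (1 < m) := ⟨by omega⟩
  obtain ⟨h1, h2⟩ := pairs_sign hA hε hm hpm k (1 : ZMod m) one_ne_zero
  set t := Multiset.replicate k (1 : ZMod m) + Multiset.replicate k (-1) with ht
  have hl : t.toList.length = 2 * k := by
    rw [Multiset.length_toList, ht, Multiset.card_add, Multiset.card_replicate,
      Multiset.card_replicate]
    ring
  obtain ⟨s, hs⟩ : ∃ s : Fin (2 * k) → ZMod m, (Finset.univ : Finset (Fin (2 * k))).val.map s = t := by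
    rw [← hl]
    refine ⟨t.toList.get, ?_⟩
    rw [Fin.univ_val_map, List.ofFn_get, Multiset.coe_toList]
  unfold positive
  have : Nonempty {s : Fin (2 * k) → ZMod m //
    A m ((Finset.univ : Finset (Fin (2 * k))).val.map s) ∧
      ε m ((Finset.univ : Finset (Fin (2 * k))).val.map s) = 1} := ⟨⟨s, by rw [hs]; exact ⟨h1, h2⟩⟩⟩
  exact Nat.card_pos

end

/-- **The intersection form on a Fermat variety is positive definite up to a proportion
`O(m ^ (-1/2))`.** -/
theorem result (k f : ℕ) (hk : 1 ≤ k) : ∃ C : ℕ, ∀ p m : ℕ, p.Prime → 2 ≤ m → p.Coprime m →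
    orderOf (p : ZMod m) = f →
    ∀ (A : ∀ M : ℕ, Multiset (ZMod M) → Prop) (ε : ∀ M : ℕ, Multiset (ZMod M) → ℤˣ),
      Admissible p A → Signs p A ε →
      negative A ε k m ≤ C * (m ^ (k - 1) + maxGcd f p m ^ (2 * k - 2)) ∧
      m ^ k + maxGcd f p m ^ (2 * k - 1) ≤ C * positive A ε k m ∧
      m * negative A ε k m ^ 2 ≤ C * positive A ε k m ^ 2 := by
  classical
  obtain ⟨C, hC⟩ := Pool.Agent.Results.MP_557161_ag.FermatFixedOrder.result k f hk
  -- for large degrees at least half of the lines are positive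
  refine ⟨4 * C + 2 * (4 * C + 1) ^ (2 * k) + (4 * C + 1) * ((4 * C + 1) ^ (2 * k)) ^ 2,
    fun p m hp hm hpm hf A ε hA hε => ?_⟩
  have : NeZero m := ⟨by omega⟩
  obtain ⟨h1, h2, h3⟩ := hC p m hp hm hpm hf
  set P := positive A ε k m with hP
  set N := negative A ε k m with hN
  set T := tateLines p k m with hT
  set O := openLines p k m with hO
  set D := m ^ k + maxGcd f p m ^ (2 * k - 1) with hD
  have hNO : N ≤ O := by
    rw [hN, hO]
    unfold negative openLines
    refine Nat.card_le_card_of_injective (fun s => ⟨s.1, hA.tate m (by omega) hpm _ s.2.1,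
      fun h => ?_⟩) fun a b h => ?_
    · have h4 := (line_sign hA hε (by omega) hpm h).2
      rw [s.2.2] at h4
      exact absurd h4 (by decide)
    · have h4 := congrArg Subtype.val h
      exact Subtype.ext h4
  have hTP : T ≤ P + O := by
    rw [hT, hP, hO]
    unfold tateLines positive openLines
    rw [Nat.card_eq_fintype_card, Nat.card_eq_fintype_card, Nat.card_eq_fintype_card,
      Fintype.card_subtype, Fintype.card_subtype, Fintype.card_subtype]
    refine (Finset.card_le_card ?_).trans (Finset.card_union_le _ _)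
    intro s hs
    rw [Finset.mem_filter] at hs
    rw [Finset.mem_union, Finset.mem_filter, Finset.mem_filter]
    by_cases h : AlgebraicLine p m ((Finset.univ : Finset (Fin (2 * k))).val.map s)
    · exact Or.inl ⟨Finset.mem_univ _, line_sign hA hε (by omega) hpm h⟩
    · exact Or.inr ⟨Finset.mem_univ _, hs.2, h⟩
  have hcard : ∀ Q : (Fin (2 * k) → ZMod m) → Prop, Nat.card {s // Q s} ≤ m ^ (2 * k) := by
    intro Q
    rw [Nat.card_eq_fintype_card]
    refine (Fintype.card_subtype_le _).trans ?_
    rw [Fintype.card_fun, ZMod.card, Fintype.card_fin]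
  have hP1 : 1 ≤ P := one_le_positive hA hε hm hpm k
  refine ⟨?_, ?_⟩
  · refine (hNO.trans h1).trans (Nat.mul_le_mul_right _ (by omega))
  by_cases hcase : 2 * O ≤ T
  · have h4 : T ≤ 2 * P := by omega
    refine ⟨?_, ?_⟩
    · calc D ≤ C * T := h2
        _ ≤ C * (2 * P) := Nat.mul_le_mul_left _ h4
        _ = (2 * C) * P := by ring
        _ ≤ _ := Nat.mul_le_mul_right _ (by omega)
    · calc m * N ^ 2 ≤ m * O ^ 2 := Nat.mul_le_mul_left _ (Nat.pow_le_pow_left hNO 2)
        _ ≤ C * T ^ 2 := h3
        _ ≤ C * (2 * P) ^ 2 := Nat.mul_le_mul_left _ (Nat.pow_le_pow_left h4 2)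
        _ = (4 * C) * P ^ 2 := by ring
        _ ≤ _ := Nat.mul_le_mul_right _ (by omega)
  · have hT1 : 1 ≤ T := by
      by_contra h
      have h4 : T = 0 := by omega
      rw [h4, mul_zero] at h2
      have h5 : 1 ≤ m ^ k := Nat.one_le_pow _ _ (by omega)
      omega
    have hm4 : m ≤ 4 * C := by
      have h4 : m * T ^ 2 ≤ (4 * C) * T ^ 2 := by
        calc m * T ^ 2 ≤ m * (2 * O) ^ 2 :=
              Nat.mul_le_mul_left _ (Nat.pow_le_pow_left (by omega) 2)
          _ = 4 * (m * O ^ 2) := by ring
          _ ≤ 4 * (C * T ^ 2) := Nat.mul_le_mul_left _ h3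
          _ = (4 * C) * T ^ 2 := by ring
      exact Nat.le_of_mul_le_mul_right h4 (by positivity)
    have hmk : m ^ (2 * k) ≤ (4 * C + 1) ^ (2 * k) := Nat.pow_le_pow_left (by omega) _
    have hgm : maxGcd f p m ≤ m := by
      unfold maxGcd
      refine Finset.sup_le fun e _ => ?_
      exact Nat.gcd_le_right _ (by omega)
    refine ⟨?_, ?_⟩
    · have h4 : D ≤ 2 * (4 * C + 1) ^ (2 * k) := by
        have h5 : m ^ k ≤ m ^ (2 * k) := Nat.pow_le_pow_right (by omega) (by omega)
        have h6 : maxGcd f p m ^ (2 * k - 1) ≤ m ^ (2 * k) :=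
          (Nat.pow_le_pow_left hgm _).trans (Nat.pow_le_pow_right (by omega) (by omega))
        omega
      calc D ≤ 2 * (4 * C + 1) ^ (2 * k) := h4
        _ ≤ (2 * (4 * C + 1) ^ (2 * k)) * P := Nat.le_mul_of_pos_right _ hP1
        _ ≤ _ := Nat.mul_le_mul_right _ (by omega)
    · have h4 : N ≤ (4 * C + 1) ^ (2 * k) := (hcard _).trans hmk
      calc m * N ^ 2 ≤ (4 * C + 1) * ((4 * C + 1) ^ (2 * k)) ^ 2 :=
            Nat.mul_le_mul (by omega) (Nat.pow_le_pow_left h4 2)
        _ ≤ ((4 * C + 1) * ((4 * C + 1) ^ (2 * k)) ^ 2) * P ^ 2 :=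
            Nat.le_mul_of_pos_right _ (by positivity)
        _ ≤ _ := Nat.mul_le_mul_right _ (by omega)

end Pool.Agent.Results.MP_ffcd14_ag.FermatSignature
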