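import Pool.Agent.Q55.Nr.NMain

/-!
# The numerical Hodge standard conjecture for the cycles generated by the cycles on one power

Let `X` be a smooth projective variety over a field of any characteristic, with a divisor `D` with
`deg D ^ dim X > 0` which satisfies the hard Lefschetz theorem, and suppose that `X` satisfies the
Lefschetz standard conjecture `B(X)` (this is known for abelian varieties, surfaces, …). Nothing is
supposed about the comparison of homological and numerical equivalence, and the conclusion is about
cycles modulo **numerical** equivalence, as in the question.

Let `L ≥ 3`, and suppose that the numerical Hodge standard conjecture holds for the single variety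
`X^L`: for all numerically primitive cycles `z` of codimension `j ≤ d / 2` on `X^L`, `d = L dim X`,
which are not numerically trivial, the sign of `deg (z · z · D ^ (d - 2 j))` is `(-1) ^ j`. Then the
same holds on **all powers of `X`** for all cycles which are generated, modulo numerical equivalence,
by the cycles on `X^L`. Here a cycle on a power of `X` is generated by the cycles on `X^L` if it
belongs to every family of sets of cycles on the powers of `X` which contains the cycles on `X^L` and
all numerically trivial cycles, and which is closed under linear combinations, intersection
products, and pull-backs and push-forwards along the morphisms `x ↦ (x_(σ 0), x_(σ 1), …)` between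
the powers of `X` (projections, permutations, diagonals). So if the cycles on all powers of `X` are
generated in this sense by the cycles on `X^L`, then the numerical Hodge standard conjecture for all
powers of `X` is reduced to the single variety `X^L`.

The coefficient field of the cohomology theory is supposed to embed into the complex numbers, as the
field of `l`-adic numbers does.

The idea of the proof. The cycles modulo numerical equivalence on the powers of `X` form a system of
tensors over `ℚ` in which the form of Hodge and Riemann takes rational values, but these tensors are
not tensors of a vector space: the classes in cohomology form such a system, and there is no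
splitting of the quotient modulo numerically trivial classes. Let `A` be the algebra of functions
on the group of the form which is generated by the coordinates of the classes of the cycles. Averaging
over the group shows that the functions which come from numerically trivial classes generate a
proper ideal of `A`, and as `A` is of countable dimension over the uncountable algebraically closed
field `ℂ`, there is a character `φ` of `A` which kills it. This `φ` gives a realisation of the
cycles modulo numerical equivalence as tensors, compatible with products, permutations and
contractions, and to this realisation the method of Kempf and Ness applies: the real structure given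
by the cycles and the real structure given by a unitary basis differ by a unitary element `κ` of the
group, which is the identity on the cycles on `X^L` by the hypothesis. The functions in `A` at which
`φ` and its translate by `κ` agree form a subalgebra, and from this one sees that `κ` fixes every
class which is generated by the cycles on `X^L`.
-/

open CategoryTheory AlgebraicGeometry

universe u

namespace Pool.Agent.Results.MP_ffcd14_ag.NumericalPositivity

open Pool.Agent.H914 Pool.Agent.H914.VarClass.Obj
open Pool.Agent.Y133.Half (pw)
open Pool.Agent.Q55 (pwDiv)
open Pool.Agent.Q55.Nr (NumHodge NumHodgeOn genNum)

variable {k : Type u} [Field k] {𝒱 : VarClass k} {ops : CycleOps 𝒱}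

/-- **The numerical Hodge standard conjecture for the cycles on all powers which are generated,
modulo numerical equivalence, by the cycles on one power.** Here `pw X n` is the product of `n + 1`
copies of `X`, and `pwDiv ops D n` is the sum of the pull-backs of `D`. -/
theorem result (W : WeilCohomology.{u, 0} ops) (hσ : Nonempty (W.K →+* ℂ)) (X : 𝒱.Obj)
    (D : X.Cycles) (hD : X.IsCyc 1 D)
    (hdeg : 0 < X.V.degCycle (divPow ops D X.dim X.V.fundCycle)) (hHL : HardLefschetz W X D)
    (hB : LefschetzB W X D) (L : ℕ) (hL : 3 ≤ L)
    (hH : NumHodge ops (pw X (L - 1)) (pwDiv ops D (L - 1))) :
    (∀ n, NumHodgeOn ops (pw X n) (pwDiv ops D n) (genNum ops X (L - 1) n)) ∧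
    ((∀ n j z, (pw X n).IsCyc j z → z ∈ genNum ops X (L - 1) n) →
      ∀ n, NumHodge ops (pw X n) (pwDiv ops D n)) := by
  obtain ⟨N₀, h⟩ := Pool.Agent.Q55.Nr.nmain hσ hD hdeg hHL hB
  have key := (h (L - 1) (by omega) hH).1
  exact ⟨key, fun hg n j hj z hz _ => key n j hj z hz (hg n j z hz)⟩

end Pool.Agent.Results.MP_ffcd14_ag.NumericalPositivity
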